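import Mathlib
import Pool.Agent.Lib.helper13.TangCheck

set_option autoImplicit false

namespace Pool.Agent.Results.MP_7230e4_co.Example

open Pool.Agent.Lib.H13Tang Set Submodule
open scoped Matroid

/-- The critical exponent, the least `c` with `χ(M; q ^ c) ≠ 0`, is at most `k`. -/
def CritExpLE {α : Type} [Finite α] (M : Matroid α) (q k : ℕ) : Prop :=
  ∃ c ≤ k, charPoly M ((q : ℤ) ^ c) ≠ 0

/-- `ψ` represents `M` by a spanning family of vectors of `F ^ n`. -/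
def IsSpanningRep {α : Type} (F : Type) [Field F] (M : Matroid α) (n : ℕ)
    (ψ : α → (Fin n → F)) : Prop :=
  (∀ I ⊆ M.E, (M.Indep I ↔ LinearIndepOn F ψ I)) ∧ span F (ψ '' M.E) = ⊤

/-- Minimal `k`-blocks for the field order `q`. -/
def IsMinimalBlock {α : Type} [Finite α] (M : Matroid α) (q k : ℕ) : Prop :=
  ¬ CritExpLE M q k ∧ ∀ x ∈ M.E, CritExpLE (M.delete {x}) q k

/-- Every nonempty flat of rank at most `n - k` has a tangent of codimension `k`. -/
def HasTangents {α : Type} (F : Type) [Field F] (M : Matroid α) (k n : ℕ)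
    (ψ : α → (Fin n → F)) : Prop :=
  ∀ Y, M.IsFlat Y → Y.Nonempty → rk M Y + k ≤ n →
    ∃ U : Submodule F (Fin n → F), Module.finrank F U + k = n ∧ ∀ e ∈ M.E, (ψ e ∈ U ↔ e ∈ Y)

/-- A copoint meeting every line. -/
def IsModularCopoint {α : Type} (M : Matroid α) (X : Set α) : Prop :=
  M.IsFlat X ∧ rk M X + 1 = rk M M.E ∧ ∀ L, M.IsFlat L → rk M L = 2 → (L ∩ X).Nonempty

/-- First relation. -/
def p1 : Fin 8 → ZMod 7 := ![1, 0, 1, 6, 4, 4, 5, 0]

/-- Second relation. -/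
def p2 : Fin 8 → ZMod 7 := ![0, 1, 6, 5, 1, 2, 6, 0]

theorem heavy : Heavy (span (ZMod 7) {p1, p2}) 4 := by
  intro r hr T hT h0
  obtain ⟨a, b, rfl⟩ := mem_span_pair.1 hr
  have key : ∀ a b : ZMod 7, (a = 0 ∧ b = 0) ∨
      4 < (Finset.univ.filter fun i => a * p1 i + b * p2 i ≠ 0).card := by decide +kernel
  rcases key a b with ⟨rfl, rfl⟩ | h
  · simp
  · obtain ⟨i, hi, hiT⟩ := Finset.exists_mem_notMem_of_card_lt_card (hT.trans_lt h)
    exact absurd (by simpa using h0 i hiT) (Finset.mem_filter.1 hi).2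

theorem func (c : Fin 8 → ZMod 7) (h1 : ∑ i, p1 i * c i = 0) (h2 : ∑ i, p2 i * c i = 0) :
    ∃ l : ((Fin 8 → ZMod 7) ⧸ span (ZMod 7) {p1, p2}) →ₗ[ZMod 7] ZMod 7,
      ∀ i, l (tv (span (ZMod 7) {p1, p2}) i) = c i :=
  exists_functional c fun p hp => by
    obtain ⟨a, b, rfl⟩ := mem_span_pair.1 hp
    simp only [Pi.add_apply, Pi.smul_apply, smul_eq_mul, add_mul, mul_assoc,
      Finset.sum_add_distrib, ← Finset.mul_sum, h1, h2, mul_zero, add_zero]

theorem points : ∀ i j : Fin 8, i < j → ∃ G ∈ [10138130, 5460504, 5452329, 11612723, 13738539,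
    9806389, 8004139, 13251077, 13222413, 11219484, 7545397, 11485722, 12198443, 11604019,
    7930405, 5517862, 6431285, 1712683, 7508502, 9740830, 4633126, 3809835, 9249333, 7422510,
    5906987, 11674142, 10101291, 14295595], dg G i = dg G j ∧
    ∑ u, p1 u * (dg G u : ZMod 7) = 0 ∧ ∑ u, p2 u * (dg G u : ZMod 7) = 0 ∧
    ∀ u v : Fin 8, u ≠ v → (dg G u : ZMod 7) = dg G v → (u = i ∧ v = j) ∨ (u = j ∧ v = i) := by
  decide +kernel

theorem collide : ∀ a b c d e : ZMod 7, a + b + 6 * c + 8 * d + 5 * e = 0 →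
    a + 6 * b + 5 * c + 3 * d + 6 * e = 0 → a = b ∨ a = c ∨ a = d ∨ a = e ∨ b = c ∨ b = d ∨
      b = e ∨ c = d ∨ c = e ∨ d = e := by
  have : ∀ b c d e : ZMod 7, -(b + 6 * c + 8 * d + 5 * e) + 6 * b + 5 * c + 3 * d + 6 * e = 0 →
      -(b + 6 * c + 8 * d + 5 * e) = b ∨ -(b + 6 * c + 8 * d + 5 * e) = c ∨
      -(b + 6 * c + 8 * d + 5 * e) = d ∨ -(b + 6 * c + 8 * d + 5 * e) = e ∨ b = c ∨ b = d ∨
      b = e ∨ c = d ∨ c = e ∨ d = e := by decide +kernel
  intro a b c d e h1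
  obtain rfl : a = -(b + 6 * c + 8 * d + 5 * e) := by linear_combination h1
  exact this b c d e

theorem result : ∃ (F : Type) (_ : Field F) (_ : Fintype F) (k : ℕ) (α : Type) (_ : Finite α)
    (M : Matroid α), 1 ≤ k ∧ Simple M ∧ (∃ X, IsModularCopoint M X) ∧
      IsMinimalBlock M (Fintype.card F) k ∧ (∃ n ψ, IsSpanningRep F M n ψ) ∧
      ∀ n ψ, IsSpanningRep F M n ψ → ¬ HasTangents F M k n ψ := by
  have hX := modular_avoid (P := span (ZMod 7) {p1, p2}) 7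
    (fun p hp => by
      obtain ⟨a, b, rfl⟩ := mem_span_pair.1 hp
      have h1 : p1 7 = 0 := rfl
      have h2 : p2 7 = 0 := rfl
      simp [h1, h2]) (u := 0) (by decide)
  refine ⟨ZMod 7, inferInstance, inferInstance, 1, Sym2 (Fin 8), inferInstance,
    EM (span (ZMod 7) {p1, p2}), le_rfl, heavy.simple, ⟨_, hX.1.1, hX.2, fun L hL h2 => ?_⟩,
    ⟨?_, fun x hx => ⟨1, le_rfl, ne_of_gt ?_⟩⟩, EM_rep.exists_spanning, fun n ψ hψ hT => ?_⟩
  · rw [inter_comm]
    exact hX.1.meets hX.1.1.subset_ground hX.2.ge hL h2 hL.subset_ground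
  · rintro ⟨c, hc, h⟩
    exact EM_block (k := 1) (by rw [ZMod.card]; norm_num)
      ⟨c, hc, lt_of_le_of_ne (EM_rep.charPoly_nonneg c) h.symm⟩
  · rw [(EM_rep.delete _).charPoly_pos_iff]
    have key : ∀ i j : Fin 8, i < j → ∃ L : _ →ₗ[ZMod 7] (Fin 1 → ZMod 7),
        ∀ e ∈ (EM (span (ZMod 7) {p1, p2})).E \ {s(i, j)},
          L (dv (tv (span (ZMod 7) {p1, p2})) e) ≠ 0 := fun i j hij => by
      obtain ⟨G, -, -, h1, h2, h3⟩ := points i j hij
      obtain ⟨l, hl⟩ := func (fun u => (dg G u : ZMod 7)) h1 h2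
      refine ⟨LinearMap.pi fun _ => l, fun e he h0 => he.2 ?_⟩
      induction e using Sym2.ind with
      | h u v =>
        have := (dv_eq_zero_iff l u v).1 (congrFun h0 0)
        rw [hl, hl] at this
        exact Sym2.eq_iff.2 (h3 u v (mem_EM.1 he.1) this)
    induction x using Sym2.ind with
    | h i j =>
      rcases lt_or_gt_of_ne (mem_EM.1 hx) with h | h
      · exact key i j h
      · rw [Sym2.eq_swap]; exact key j i h
  · obtain ⟨l1, hl1⟩ := func ![2, 2, 0, 0, 1, 1, 5, 3] (by decide) (by decide)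
    obtain ⟨l2, hl2⟩ := func ![3, 3, 0, 1, 0, 0, 1, 0] (by decide) (by decide)
    have hY := (EM_rep (P := span (ZMod 7) {p1, p2})).isFlat_sub
      (LinearMap.ker l1 ⊓ LinearMap.ker l2)
    generalize hYd : {e | e ∈ (EM (span (ZMod 7) {p1, p2})).E ∧ dv (tv (span (ZMod 7) {p1, p2}))
      e ∈ LinearMap.ker l1 ⊓ LinearMap.ker l2} = Y at hY
    have hmem : ∀ u v, s(u, v) ∈ Y ↔ u ≠ v ∧
        (![2, 2, 0, 0, 1, 1, 5, 3] : Fin 8 → ZMod 7) u = ![2, 2, 0, 0, 1, 1, 5, 3] v ∧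
        (![3, 3, 0, 1, 0, 0, 1, 0] : Fin 8 → ZMod 7) u = ![3, 3, 0, 1, 0, 0, 1, 0] v :=
      fun u v => by
        rw [← hYd, mem_ofPred_eq, mem_EM, mem_inf, LinearMap.mem_ker, LinearMap.mem_ker,
          dv_eq_zero_iff, dv_eq_zero_iff, hl1, hl1, hl2, hl2]
    have hrep : Rep (ZMod 7) _ ψ := hψ.1
    have hn : rk (EM (span (ZMod 7) {p1, p2})) (EM (span (ZMod 7) {p1, p2})).E = n := by
      rw [hrep.rk_eq subset_rfl, hψ.2]; simp
    obtain ⟨U, hU, hUY⟩ := hT Y hY ⟨_, (hmem 0 1).2 (by decide)⟩ (hn ▸ rk_lt_of_flat hY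
      subset_rfl ⟨hY.subset_ground, fun h => absurd ((hmem 0 2).1 (h (mem_EM.2 (by decide))))
        (by decide)⟩)
    have hq : Module.finrank (ZMod 7) ((Fin n → ZMod 7) ⧸ U) =
        Module.finrank (ZMod 7) (Fin 1 → ZMod 7) := by
      have := U.finrank_quotient_add_finrank
      simp only [Module.finrank_fin_fun] at this ⊢
      omega
    let ε := LinearEquiv.ofFinrankEq _ _ hq
    have hz : ∀ w, (ε.toLinearMap ∘ₗ U.mkQ) w = 0 ↔ w ∈ U := fun w => by simp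
    obtain ⟨L, hL0, hL⟩ := (EM_rep.minor_pos_iff hY.subset_ground ∅ 1).1
      ((hrep.minor_pos_iff hY.subset_ground ∅ 1).2 ⟨ε.toLinearMap ∘ₗ U.mkQ,
        fun x hx => (hz _).2 ((hUY x (hY.subset_ground hx)).2 hx),
        fun e he heY _ h0 => heY ((hUY e he).1 ((hz _).1 h0))⟩)
    let l := LinearMap.proj 0 ∘ₗ L
    have h1 := functional_rel l (subset_span (Or.inl rfl) : p1 ∈ span (ZMod 7) {p1, p2})
    have h2 := functional_rel l (subset_span (Or.inr rfl) : p2 ∈ span (ZMod 7) {p1, p2})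
    have h01 : l (tv _ 1) = l (tv _ 0) := congrFun ((dv_eq_zero_iff L 1 0).1
      (hL0 _ ((hmem 1 0).2 (by decide)))) 0
    have h45 : l (tv _ 5) = l (tv _ 4) := congrFun ((dv_eq_zero_iff L 5 4).1
      (hL0 _ ((hmem 5 4).2 (by decide)))) 0
    have hne : ∀ u v, u ≠ v → s(u, v) ∉ Y → l (tv _ u) ≠ l (tv _ v) := fun u v huv hY e =>
      hL _ (mem_EM.2 huv) hY (notMem_empty _) ((dv_eq_zero_iff L u v).2
        (funext fun z => by rw [Subsingleton.elim z 0]; exact e))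
    obtain ⟨c, hc⟩ : ∃ c : Fin 8 → ZMod 7, ∀ i, l (tv _ i) = c i := ⟨_, fun _ => rfl⟩
    simp only [hc] at h1 h2 h01 h45 hne
    simp only [Fin.sum_univ_eight, h01, h45, p1, p2, Matrix.cons_val] at h1 h2
    rcases collide (c 0) (c 2) (c 3) (c 4) (c 6)
      (by linear_combination h1) (by linear_combination h2) with
      h | h | h | h | h | h | h | h | h | h
    all_goals exact hne _ _ (by decide) (by rw [hmem]; decide) h

end Pool.Agent.Results.MP_7230e4_co.Example
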